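import Pool.Agent.X235.TCat.Main

/-!
# A noncomputable c.e. degree which is a degree of topological categoricity

The degree of the halting problem, that is the degree of any Turing complete c.e. set, is the
degree of topological categoricity of a computable Polish space, namely of the countable infinite
discrete space. (The starting results `NotEveryCE`, `NoLowDegree` exhibit noncomputable c.e.
degrees which are not degrees of topological categoricity.)
-/

set_option autoImplicit false

namespace Pool.Agent.Results.MP_55a818_lc.HaltingDegree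

open Pool.Agent.Helper583.TT (CMS)
open Pool.Agent.Helper583.TC (Red orc)
open Pool.Agent.H109R3.TC
open Pool.Agent.Helper446 Pool.Agent.Helper446.Defs

/-- the characteristic function of a set -/
noncomputable def chi (A : ℕ → Prop) (n : ℕ) : ℕ :=
  open Classical in if A n then 1 else 0

/-- `A` is a Turing complete c.e. set: it is c.e. and computes every c.e. set. -/
def CompleteCE (A : ℕ → Prop) : Prop :=
  REPred A ∧ ∀ B : ℕ → Prop, REPred B → Red (chi B) (chi A)

/-- `X` is a computable Polish space. -/
def ComputablePolish (X : Type) [TopologicalSpace X] : Prop := ∃ M : CMS, Nonempty (M.Y ≃ₜ X)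

/-- The Turing degree of `A` is the degree of topological categoricity of `X`. -/
def DegreeOfCat (A : ℕ → Prop) (X : Type) [TopologicalSpace X] : Prop :=
  Cat X (chi A) ∧ ∀ a : ℕ → ℕ, Cat X a → Red (chi A) a

/-- The same with the variant of categoricity in which the homeomorphism and its inverse are both
required to be computable relative to the oracle. -/
def DegreeOfCatBoth (A : ℕ → Prop) (X : Type) [TopologicalSpace X] : Prop :=
  CatBoth X (chi A) ∧ ∀ a : ℕ → ℕ, CatBoth X a → Red (chi A) a

theorem catBoth_mono {X : Type} [TopologicalSpace X] {a b : ℕ → ℕ} (h : Red a b)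
    (hc : CatBoth X a) : CatBoth X b := by
  have key : ∀ M N : CMS, ∀ e : M.Y → N.Y, CompMapIn a M N e → CompMapIn b M N e := by
    intro M N e ⟨φ, hφ, h1⟩
    refine ⟨φ, hφ.subst ?_, h1⟩
    intro g hg
    rw [Set.mem_singleton_iff] at hg
    subst hg
    exact RecursiveIn.iff_nat.2 h
  intro M N hM hN
  obtain ⟨e, h1, h2⟩ := hc M N hM hN
  exact ⟨e, key _ _ _ h1, key _ _ _ h2⟩

theorem chi_K : chi (fun n => n ∈ X235.TCat.K) = chiN X235.TCat.K := by
  classical
  funext n
  by_cases h : n ∈ X235.TCat.K
  · rw [Oracle.chiN_eq_one.2 h]; unfold chi; rw [if_pos h]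
  · rw [Oracle.chiN_eq_zero.2 h]; unfold chi; rw [if_neg h]

theorem complete_K : CompleteCE fun n => n ∈ X235.TCat.K := by
  classical
  refine ⟨X235.TCat.K_re, fun B hB => ?_⟩
  obtain ⟨f, hf, h1⟩ := X235.TCat.exists_red hB
  have h2 : Nat.RecursiveIn {orc (chi fun n => n ∈ X235.TCat.K)}
      (orc fun n => chi (fun n => n ∈ X235.TCat.K) (f n)) :=
    Pool.Agent.Helper583.TC.J3.ri_comp (Nat.RecursiveIn.oracle _ rfl)
      (Pool.Agent.Helper583.TC.J3.ri_comput hf)
  refine h2.of_eq fun n => ?_
  show Part.some _ = Part.some _
  congr 1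
  unfold chi
  by_cases h : B n
  · rw [if_pos h]
    exact if_pos ((h1 n).1 h)
  · rw [if_neg h]
    exact if_neg fun h3 => h ((h1 n).2 h3)

theorem not_computable_K : ¬ ComputablePred fun n => n ∈ X235.TCat.K := by
  intro hK
  obtain ⟨f, hf, h1⟩ := X235.TCat.exists_red (ComputablePred.halting_problem_re 0)
  refine ComputablePred.halting_problem 0 ?_
  exact (RE.cp_comp hK hf).of_eq fun c => (h1 c).symm

/-- There is a Turing complete c.e. set, it is noncomputable, and the Turing degree of every
Turing complete c.e. set is the degree of topological categoricity of a computable Polish space,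
namely of the set of natural numbers with the discrete topology; so it is also with the variant of
categoricity in which the homeomorphism and its inverse are both required to be computable
relative to the oracle. In particular at least one noncomputable c.e. degree is the degree of
topological categoricity of some computable Polish space. -/
theorem result :
    (∃ A : ℕ → Prop, CompleteCE A ∧ ¬ ComputablePred A) ∧
    (∀ A : ℕ → Prop, CompleteCE A → ComputablePolish ℕ ∧ DegreeOfCat A ℕ ∧
      DegreeOfCatBoth A ℕ) ∧
    ∃ A : ℕ → Prop, REPred A ∧ ¬ ComputablePred A ∧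
      ∃ (X : Type) (_ : TopologicalSpace X), ComputablePolish X ∧ DegreeOfCat A X ∧
        DegreeOfCatBoth A X := by
  have key : ∀ A : ℕ → Prop, CompleteCE A → ComputablePolish ℕ ∧ DegreeOfCat A ℕ ∧
      DegreeOfCatBoth A ℕ := by
    intro A hA
    classical
    have h1 : CatBoth ℕ (chi A) := by
      refine catBoth_mono (a := chi fun n => n ∈ X235.TCat.K) (hA.2 _ X235.TCat.K_re) ?_
      rw [chi_K]
      exact X235.TCat.catBoth_K
    obtain ⟨r, hr, h2⟩ := RE.re_iff.1 hA.1
    have h3 : ∀ a : ℕ → ℕ, Cat ℕ a → Red (chi A) a := by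
      intro a ha
      refine X235.TCat.lower ha hr fun n => ?_
      unfold chi
      by_cases h : A n
      · rw [if_pos h]; exact Or.inl ⟨rfl, (h2 n).1 h⟩
      · rw [if_neg h]; exact Or.inr ⟨rfl, fun h4 => h ((h2 n).2 h4)⟩
    exact ⟨⟨X235.TCat.N0, ⟨Homeomorph.refl ℕ⟩⟩, ⟨h1.cat, h3⟩, h1, fun a ha => h3 a ha.cat⟩
  refine ⟨⟨_, complete_K, not_computable_K⟩, key, ⟨_, complete_K.1, not_computable_K, ℕ,
    inferInstance, key _ complete_K⟩⟩

end Pool.Agent.Results.MP_55a818_lc.HaltingDegree
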